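import Pool.Agent.Helper64.E0.HypB

/-!
# Borel homomorphisms from Turing equivalence to `E₀` and hyperdegrees
-/

namespace Pool.Agent.Results.MP_14720a_lc.BorelHyperdegrees

open Pool.Agent.Helper64.E0

/-- Let `f` be a Borel homomorphism from Turing equivalence to `E₀`. Then there is an
`E₀`-class whose preimage meets every hyperdegree above some `b`. In particular, if `f` is
a homomorphism from hyperarithmetical equivalence, then the preimage of this class contains the
cone of hyperdegrees above `b`. -/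
theorem result (f : (ℕ → Bool) → (ℕ → Bool)) (hf : Measurable f)
    (hinv : ∀ x y, TEq x y → EvEq (f x) (f y)) :
    ∃ c b : ℕ → Bool, (∀ w, HypLe b w → ∃ x, HypEq x w ∧ EvEq (f x) c) ∧
      ((∀ x y, HypEq x y → EvEq (f x) (f y)) → ∀ w, HypLe b w → EvEq (f w) c) := by
  obtain ⟨N, c', b, h⟩ := mainH (fun k x i => f x (k + i))
    (fun k => measurable_pi_lambda _ fun i => (measurable_pi_apply (k + i)).comp hf)
    (fun k x y h => by
      funext i
      have h1 := congrFun h (i + 1)
      rw [show k + (i + 1) = k + 1 + i by omega] at h1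
      exact h1)
    (fun x y hxy => by
      obtain ⟨k, hk⟩ := hinv x y hxy
      exact ⟨k, funext fun i => hk _ (Nat.le_add_right k i)⟩)
  have h1 : ∀ x, (fun i => f x (N + i)) = c' → EvEq (f x) fun i => c' (i - N) := by
    intro x hx
    refine ⟨N, fun i hi => ?_⟩
    rw [← hx]
    beta_reduce
    rw [Nat.add_sub_cancel' hi]
  refine ⟨fun i => c' (i - N), b, fun w hw => ?_, fun hA w hw => ?_⟩
  · obtain ⟨x, hxw, hx⟩ := h w hw
    exact ⟨x, hxw, h1 x hx⟩
  · obtain ⟨x, hxw, hx⟩ := h w hw
    obtain ⟨k, hk⟩ := hA w x ⟨hxw.2, hxw.1⟩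
    obtain ⟨l, hl⟩ := h1 x hx
    exact ⟨max k l, fun i hi => (hk i ((le_max_left _ _).trans hi)).trans
      (hl i ((le_max_right _ _).trans hi))⟩

end Pool.Agent.Results.MP_14720a_lc.BorelHyperdegrees
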