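import Pool.Agent.Helper64.E0.Main
import Pool.Agent.Helper64.E0.TA

/-!
# Homomorphisms of finite Borel rank from Turing and arithmetic equivalence to `E₀`
-/

namespace Pool.Agent.Results.MP_14720a_lc.FiniteBorelRank

open Pool.Agent.Helper64.E0

/-- Let `f` be a homomorphism of finite Borel rank from Turing equivalence to `E₀`. Then there is
an `E₀`-class whose preimage meets every arithmetical degree above some `b`. In particular, if
`f` is a homomorphism from arithmetical equivalence, then the preimage of this class contains the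
arithmetic cone above `b`. -/
theorem result (f : (ℕ → Bool) → (ℕ → Bool)) (hf : FinRank f)
    (hinv : ∀ x y, TEq x y → EvEq (f x) (f y)) :
    ∃ c b : ℕ → Bool, (∀ w, ArithLe b w → ∃ x, ArithEq x w ∧ EvEq (f x) c) ∧
      ((∀ x y, ArithEq x y → EvEq (f x) (f y)) → ∀ w, ArithLe b w → EvEq (f w) c) := by
  obtain ⟨n, hn⟩ := hf
  obtain ⟨N, c', b, h⟩ := main (fun k x i => f x (k + i)) ⟨n, fun k U hU => by
      have hcont : Continuous fun (z : ℕ → Bool) i => z (k + i) :=
        continuous_pi fun i => continuous_apply (k + i)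
      exact hn _ (hU.preimage hcont)⟩
    (fun k x y h => by
      funext i
      have h1 := congrFun h (i + 1)
      rw [show k + (i + 1) = k + 1 + i by omega] at h1
      exact h1)
    (fun x y hxy => by
      obtain ⟨k, hk⟩ := hinv x y hxy
      exact ⟨k, funext fun i => hk _ (Nat.le_add_right k i)⟩)
  have h1 : ∀ x, (fun i => f x (N + i)) = c' → EvEq (f x) fun i => c' (i - N) := by
    intro x hx
    refine ⟨N, fun i hi => ?_⟩
    rw [← hx]
    beta_reduce
    rw [Nat.add_sub_cancel' hi]
  refine ⟨fun i => c' (i - N), b, fun w hw => ?_, fun hA w hw => ?_⟩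
  · obtain ⟨x, hxw, hx⟩ := h w hw
    exact ⟨x, hxw, h1 x hx⟩
  · obtain ⟨x, hxw, hx⟩ := h w hw
    obtain ⟨k, hk⟩ := hA w x hxw.symm
    obtain ⟨l, hl⟩ := h1 x hx
    exact ⟨max k l, fun i hi => (hk i ((le_max_left _ _).trans hi)).trans
      (hl i ((le_max_right _ _).trans hi))⟩

/-- The second question, for homomorphisms of finite Borel rank. -/
theorem arithmetic (f : (ℕ → Bool) → (ℕ → Bool)) (hf : FinRank f)
    (hinv : ∀ x y, ArithEq x y → EvEq (f x) (f y)) :
    ∃ c b : ℕ → Bool, ∀ w, ArithLe b w → EvEq (f w) c := by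
  obtain ⟨c, b, _, h⟩ := result f hf fun x y h => hinv x y h.arithEq
  exact ⟨c, b, h hinv⟩

end Pool.Agent.Results.MP_14720a_lc.FiniteBorelRank
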