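import Pool.Agent.Helper1.JC.Base

/-!
# The preimage of one `E₀`-class generates a Turing cone under joins

`result`: for every Borel homomorphism `f` from Turing equivalence to `E₀` and every `b` there are
`c`, `x`, `p` such that `f x E₀ c` and every `w` above `p` is Turing equivalent to `x ⊕ y` for some
`y` above `b` with `f y E₀ c`. No determinacy is used.
-/

namespace Pool.Agent.Results.MP_14720a_lc.JoinSplitting

open Pool.Agent.Helper64.E0 Pool.Agent.Helper1.JC

/-- Let `f` be a Borel homomorphism from Turing equivalence to `E₀` and `b` a point. There are an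
`E₀`-class (of `c`), a point `x ≥_T b` of its preimage and `p ≥_T x` such that every `w ≥_T p` is
Turing equivalent to the join of `x` and a point `y ≥_T b` of the preimage. -/
theorem result (f : (ℕ → Bool) → (ℕ → Bool)) (hf : Measurable f)
    (hinv : ∀ x y, TEq x y → EvEq (f x) (f y)) (b : ℕ → Bool) :
    ∃ c x p : ℕ → Bool, TLe b x ∧ TLe x p ∧ EvEq (f x) c ∧
      ∀ w, TLe p w → ∃ y, TLe b y ∧ EvEq (f y) c ∧ TEq w (join x y) :=
  split_hom hf hinv b

/-- A Borel homomorphism from Turing equivalence to `E₀` maps some Turing cone into one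
`E₀`-class if and only if on some Turing cone its fibres modulo `E₀` are closed under join. -/
theorem cone_iff_join_closed (f : (ℕ → Bool) → (ℕ → Bool)) (hf : Measurable f)
    (hinv : ∀ x y, TEq x y → EvEq (f x) (f y)) :
    (∃ a, ∀ x y, TLe a x → TLe a y → EvEq (f x) (f y)) ↔
      ∃ a, ∀ x y, TLe a x → TLe a y → EvEq (f x) (f y) → EvEq (f (join x y)) (f x) := by
  constructor
  · rintro ⟨a, ha⟩
    exact ⟨a, fun x y hx _ _ => ha _ _ (hx.trans (TLe.left x y)) hx⟩
  · rintro ⟨a, ha⟩
    obtain ⟨c, x, p, hax, -, hx, h⟩ := result f hf hinv a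
    have key : ∀ w, TLe p w → EvEq (f w) c := by
      intro w hw
      obtain ⟨y, hay, hy, hwy⟩ := h w hw
      exact ev_trans (hinv _ _ hwy) (ev_trans (ha x y hax hay (ev_trans hx (ev_symm hy))) hx)
    exact ⟨p, fun w w' hw hw' => ev_trans (key w hw) (ev_symm (key w' hw'))⟩

/-- In particular: if the fibres modulo `E₀` are directed and convex on some Turing cone, then some
Turing cone is mapped into one `E₀`-class. -/
theorem cone_of_directed_convex (f : (ℕ → Bool) → (ℕ → Bool)) (hf : Measurable f)
    (hinv : ∀ x y, TEq x y → EvEq (f x) (f y)) (a : ℕ → Bool)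
    (hdir : ∀ x y, TLe a x → TLe a y → EvEq (f x) (f y) →
      ∃ z, TLe x z ∧ TLe y z ∧ EvEq (f z) (f x))
    (hconv : ∀ x y z, TLe a x → TLe x y → TLe y z → EvEq (f x) (f z) → EvEq (f y) (f x)) :
    ∃ a', ∀ x y, TLe a' x → TLe a' y → EvEq (f x) (f y) := by
  refine (cone_iff_join_closed f hf hinv).2 ⟨a, fun x y hx hy hxy => ?_⟩
  obtain ⟨z, h1, h2, h3⟩ := hdir x y hx hy hxy
  exact hconv x (join x y) z hx (TLe.left x y) (TLe.join h1 h2) (ev_symm h3)

end Pool.Agent.Results.MP_14720a_lc.JoinSplitting
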