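import Pool.Agent.Helper38.E1.Main

/-!
# Weak `E₀`-ergodicity of Turing equivalence for homomorphisms of bounded difference level

`result`: let `f` be a homomorphism from Turing equivalence to `E₀` such that all the sets
`{x | f x n = true}` are on the `k`-th level of the difference hierarchy over the open sets, `k`
fixed (`k = 1`: open sets; for instance `f x = W^x` for an operator `W` which is computably
enumerable in a parameter). Then every infinite set `H` of coordinates has an infinite subset `H'`
such that `f x` is eventually constant on `H'`, with the same value for all `x` in a Turing cone.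

Proof by induction on `k`, for homomorphisms with a base. Either, along some base, infinitely many
of the top level sets miss a whole cylinder: restrict to this cylinder and decrease `k`. Or along
every base finitely many strings can be extended into the `n`-th top level set for arbitrarily large
`n` in `H`: then a search computable in the base gives a perfect tree all of whose branches are in
the top level sets of infinitely many fixed `n`, and every point above the base is Turing equivalent
to a branch joined with the base. No determinacy is used.
-/

namespace Pool.Agent.Results.MP_14720a_lc.WeakErgodicity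

open Pool.Agent.Helper64.E0 Pool.Agent.Helper38.E1

/-- Let `f` be a homomorphism from Turing equivalence to `E₀`. Suppose that for every `n` there are
open sets `V n 0 ⊇ V n 1 ⊇ ⋯ ⊇ V n k = ∅` with
`{x | f x n = true} = (V n 0 \ V n 1) ∪ (V n 2 \ V n 3) ∪ ⋯`. Then every infinite set `H` of
coordinates has an infinite subset `H'` such that for some value `v` and all `x` in some Turing cone
`f x n = v` for all but finitely many `n ∈ H'`. -/
theorem result (k : ℕ) (f : (ℕ → Bool) → (ℕ → Bool)) (V : ℕ → ℕ → Set (ℕ → Bool))
    (hopen : ∀ n i, IsOpen (V n i)) (hdec : ∀ n i, V n (i + 1) ⊆ V n i) (hk : ∀ n, V n k = ∅)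
    (hf : ∀ n x, f x n = true ↔ ∃ i, Even i ∧ x ∈ V n i ∧ x ∉ V n (i + 1))
    (hinv : ∀ x y, TEq x y → EvEq (f x) (f y)) (H : Set ℕ) (hH : H.Infinite) :
    ∃ H' ⊆ H, H'.Infinite ∧ ∃ (v : Bool) (p : ℕ → Bool), ∀ x, TLe p x →
      ∃ N, ∀ n ∈ H', N ≤ n → f x n = v :=
  weak_ergodic k f V hopen hdec hk hf hinv H hH

/-- The case of operators with open coordinates, such as `f x = W^x` for an operator `W` which is
computably enumerable in a parameter. -/
theorem open_case (f : (ℕ → Bool) → (ℕ → Bool)) (hopen : ∀ n, IsOpen {x | f x n = true})
    (hinv : ∀ x y, TEq x y → EvEq (f x) (f y)) (H : Set ℕ) (hH : H.Infinite) :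
    ∃ H' ⊆ H, H'.Infinite ∧ ∃ (v : Bool) (p : ℕ → Bool), ∀ x, TLe p x →
      ∃ N, ∀ n ∈ H', N ≤ n → f x n = v := by
  refine result 1 f (fun n i => if i = 0 then {x | f x n = true} else ∅) ?_ ?_ ?_ ?_ hinv H hH
  · intro n i
    by_cases hi : i = 0
    · simp only [hi, if_true]
      exact hopen n
    · simp only [hi, if_false]
      exact isOpen_empty
  · intro n i
    simp
  · intro n
    simp
  · intro n x
    constructor
    · intro h
      exact ⟨0, Even.zero, by simpa using h, by simp⟩
    · rintro ⟨i, -, h, -⟩
      by_cases hi : i = 0
      · simpa [hi] using h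
      · simp [hi] at h

end Pool.Agent.Results.MP_14720a_lc.WeakErgodicity
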